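import Pool.Agent.TH279.GR.Defs

/-!
# The spaces of sections are finite-dimensional
-/

set_option autoImplicit false

open MvPolynomial Module Filter Topology

namespace Pool.Agent.TH279.GR.G11

variable {a b : ℕ}

/-! ## Bidegrees -/

theorem weight_add (d : Ix a b →₀ ℕ) :
    Finsupp.weight (fun _ : Ix a b => (1 : ℕ)) d =
      (Finsupp.weight (wt a b) d).1 + (Finsupp.weight (wt a b) d).2 := by
  induction d using Finsupp.induction_linear with
  | zero => simp
  | add f g hf hg => simp only [map_add, hf, hg, Prod.fst_add, Prod.snd_add]; ring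
  | single x c => rcases x with i | j <;> simp [Finsupp.weight_apply, wt]

theorem weight_fst (d : Ix a b →₀ ℕ) (h : ∀ i, d (Sum.inl i) = 0) :
    (Finsupp.weight (wt a b) d).1 = 0 := by
  rw [Finsupp.weight_apply, Finsupp.sum, Prod.fst_sum]
  refine Finset.sum_eq_zero fun x _ => ?_
  rcases x with i | j
  · simp [h i]
  · simp [wt]

theorem weight_snd (d : Ix a b →₀ ℕ) (h : ∀ j, d (Sum.inr j) = 0) :
    (Finsupp.weight (wt a b) d).2 = 0 := by
  rw [Finsupp.weight_apply, Finsupp.sum, Prod.snd_sum]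
  refine Finset.sum_eq_zero fun x _ => ?_
  rcases x with i | j
  · simp [wt]
  · simp [h j]

theorem mul_mem {u v u' v' : ℕ} {f g : Co a b} (hf : f ∈ bh a b u v) (hg : g ∈ bh a b u' v') :
    f * g ∈ bh a b (u + u') (v + v') :=
  IsWeightedHomogeneous.mul hf hg

theorem inl_mem (i : Fin (a + 1)) : (X (Sum.inl i) : Co a b) ∈ bh a b 1 0 :=
  isWeightedHomogeneous_X ℂ (wt a b) (Sum.inl i)

theorem inr_mem (j : Fin (b + 1)) : (X (Sum.inr j) : Co a b) ∈ bh a b 0 1 :=
  isWeightedHomogeneous_X ℂ (wt a b) (Sum.inr j)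

theorem one_mem : (1 : Co a b) ∈ bh a b 0 0 := isWeightedHomogeneous_one ℂ (wt a b)

theorem fin_bh (u v : ℕ) : FiniteDimensional ℂ (bh a b u v) := by
  have h1 : (weightedHomogeneousSubmodule ℂ (fun _ : Ix a b => (1 : ℕ)) (u + v)).FG :=
    weightedHomogeneousSubmodule_fg ℂ _ (fun _ => one_ne_zero) _
  have : FiniteDimensional ℂ (weightedHomogeneousSubmodule ℂ (fun _ : Ix a b => (1 : ℕ)) (u + v)) :=
    Module.Finite.iff_fg.2 h1
  refine Submodule.finiteDimensional_of_le
    (S₂ := weightedHomogeneousSubmodule ℂ (fun _ : Ix a b => (1 : ℕ)) (u + v)) fun f hf => ?_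
  intro d hd
  rw [weight_add, hf hd]

/-- a step with a variable `x_i` -/
theorem le_inl {u v : ℕ} (S : Submodule ℂ (Co a b))
    (h : ∀ i, ∀ g ∈ bh a b u v, X (Sum.inl i) * g ∈ S) : bh a b (u + 1) v ≤ S := by
  intro f hf
  refine IsWeightedHomogeneous.induction_on (motive := fun p _ => p ∈ S) S.zero_mem
    (fun p q _ _ hp hq => S.add_mem hp hq) (fun d r hd => ?_) hf
  obtain ⟨i, hi⟩ : ∃ i, d (Sum.inl i) ≠ 0 := by
    by_contra hcon
    push Not at hcon
    have := weight_fst d hcon
    rw [hd] at this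
    simp at this
  have hle : Finsupp.single (Sum.inl i) 1 ≤ d := by
    rw [Finsupp.single_le_iff]; omega
  have hdd : Finsupp.single (Sum.inl i) 1 + (d - Finsupp.single (Sum.inl i) 1) = d :=
    add_tsub_cancel_of_le hle
  have e1 : monomial d r = X (Sum.inl i) * monomial (d - Finsupp.single (Sum.inl i) 1) r := by
    rw [X, monomial_mul, one_mul, hdd]
  rw [e1]
  refine h i _ (isWeightedHomogeneous_monomial _ _ _ ?_)
  have h2 : Finsupp.weight (wt a b) (Finsupp.single (Sum.inl i) 1) +
      Finsupp.weight (wt a b) (d - Finsupp.single (Sum.inl i) 1) = (u + 1, v) := by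
    rw [← map_add, hdd, hd]
  have h3 : Finsupp.weight (wt a b) (Finsupp.single (Sum.inl i) 1) = (1, 0) := by
    simp [Finsupp.weight_apply, wt]
  rw [h3] at h2
  have h4 := congrArg Prod.fst h2
  have h5 := congrArg Prod.snd h2
  simp only [Prod.fst_add, Prod.snd_add] at h4 h5
  exact Prod.ext (by simp only; omega) (by simp only; omega)

/-- a step with a variable `y_j` -/
theorem le_inr {u v : ℕ} (S : Submodule ℂ (Co a b))
    (h : ∀ j, ∀ g ∈ bh a b u v, X (Sum.inr j) * g ∈ S) : bh a b u (v + 1) ≤ S := by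
  intro f hf
  refine IsWeightedHomogeneous.induction_on (motive := fun p _ => p ∈ S) S.zero_mem
    (fun p q _ _ hp hq => S.add_mem hp hq) (fun d r hd => ?_) hf
  obtain ⟨i, hi⟩ : ∃ i, d (Sum.inr i) ≠ 0 := by
    by_contra hcon
    push Not at hcon
    have := weight_snd d hcon
    rw [hd] at this
    simp at this
  have hle : Finsupp.single (Sum.inr i) 1 ≤ d := by
    rw [Finsupp.single_le_iff]; omega
  have hdd : Finsupp.single (Sum.inr i) 1 + (d - Finsupp.single (Sum.inr i) 1) = d :=
    add_tsub_cancel_of_le hle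
  have e1 : monomial d r = X (Sum.inr i) * monomial (d - Finsupp.single (Sum.inr i) 1) r := by
    rw [X, monomial_mul, one_mul, hdd]
  rw [e1]
  refine h i _ (isWeightedHomogeneous_monomial _ _ _ ?_)
  have h2 : Finsupp.weight (wt a b) (Finsupp.single (Sum.inr i) 1) +
      Finsupp.weight (wt a b) (d - Finsupp.single (Sum.inr i) 1) = (u, v + 1) := by
    rw [← map_add, hdd, hd]
  have h3 : Finsupp.weight (wt a b) (Finsupp.single (Sum.inr i) 1) = (0, 1) := by
    simp [Finsupp.weight_apply, wt]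
  rw [h3] at h2
  have h4 := congrArg Prod.fst h2
  have h5 := congrArg Prod.snd h2
  simp only [Prod.fst_add, Prod.snd_add] at h4 h5
  exact Prod.ext (by simp only; omega) (by simp only; omega)

/-- the forms of bidegree `(u + u', v + v')` are sums of products -/
theorem le_mul (u v u' v' : ℕ) : ∀ (S : Submodule ℂ (Co a b))
    (_ : ∀ g ∈ bh a b u v, ∀ g' ∈ bh a b u' v', g * g' ∈ S), bh a b (u + u') (v + v') ≤ S := by
  induction u' with
  | zero =>
    induction v' with
    | zero =>
      intro S h f hf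
      simpa using h f hf 1 one_mem
    | succ v' ih =>
      intro S h
      refine le_inr S fun j g hg => ?_
      refine ih (S.comap (LinearMap.mulLeft ℂ (X (Sum.inr j)))) (fun g hg g' hg' => ?_) hg
      simp only [Submodule.mem_comap, LinearMap.mulLeft_apply]
      rw [mul_left_comm]
      refine h g hg _ ?_
      have := mul_mem (inr_mem (a := a) (b := b) j) hg'
      rwa [Nat.zero_add, Nat.add_comm 1] at this
  | succ u' ih =>
    intro S h
    refine le_inl S fun i g hg => ?_
    refine ih (S.comap (LinearMap.mulLeft ℂ (X (Sum.inl i)))) (fun g hg g' hg' => ?_) hg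
    simp only [Submodule.mem_comap, LinearMap.mulLeft_apply]
    rw [mul_left_comm]
    refine h g hg _ ?_
    have := mul_mem (inl_mem (a := a) (b := b) i) hg'
    rwa [Nat.zero_add, Nat.add_comm 1] at this

/-- larger bidegrees -/
theorem mu_mono {P N : Ideal (Co a b)} {m n q p u v : ℕ} {ψ : KK P} (h : Mu P N m n q p u v ψ)
    {u' v' : ℕ} (hu : u ≤ u') (hv : v ≤ v') : Mu P N m n q p u' v' ψ := by
  obtain ⟨s, rfl⟩ := Nat.exists_eq_add_of_le hu
  obtain ⟨t, rfl⟩ := Nat.exists_eq_add_of_le hv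
  intro g hg
  have key : bh a b (u + q + s) (v + p + t) ≤
      ((pt N (u + s + m) (v + t + n)).map (im P).toLinearMap).comap
        ((LinearMap.mulLeft ℂ ψ).comp (im P).toLinearMap) := by
    refine le_mul _ _ _ _ _ fun g hg g' hg' => ?_
    obtain ⟨f, hf, hfg⟩ := h g hg
    refine ⟨f * g', ⟨?_, ?_⟩, ?_⟩
    · have := mul_mem hf.1 hg'
      rwa [show u + m + s = u + s + m by ring, show v + n + t = v + t + n by ring] at this
    · exact Ideal.mul_mem_right _ _ hf.2
    · simp only [AlgHom.toLinearMap_apply, LinearMap.comp_apply, LinearMap.mulLeft_apply, map_mul]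
      rw [← hfg, mul_assoc]
  rw [show u + s + q = u + q + s by ring, show v + t + p = v + p + t by ring] at hg
  obtain ⟨f, hf, hfg⟩ := key hg
  exact ⟨f, hf, hfg.symm⟩

/-- the component of the bidegree of `f` of a multiple of `f` -/
theorem comp_mul {u v : ℕ} {f : Co a b} (hf : f ∈ bh a b u v) (c : Co a b) :
    weightedHomogeneousComponent (wt a b) (u, v) (c * f) = C (coeff 0 c) * f := by
  induction c using MvPolynomial.induction_on' with
  | monomial e r =>
    by_cases he : e = 0
    · subst he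
      rw [coeff_monomial, if_pos rfl, ← C_apply, weightedHomogeneousComponent_C_mul,
        hf.weightedHomogeneousComponent_same]
    · rw [coeff_monomial, if_neg he, map_zero, zero_mul]
      refine IsWeightedHomogeneous.weightedHomogeneousComponent_ne (m := Finsupp.weight (wt a b) e +
        (u, v)) _ ((isWeightedHomogeneous_monomial _ _ _ rfl).mul hf) ?_
      intro hcon
      have h1 : Finsupp.weight (wt a b) e = 0 := by
        simpa using hcon.symm
      have h2 := weight_add e
      rw [h1] at h2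
      apply he
      ext x
      have h3 : Finsupp.weight (fun _ : Ix a b => (1 : ℕ)) e = ∑ x, e x := by
        rw [Finsupp.weight_apply, Finsupp.sum_fintype _ _ (by simp)]
        simp
      rw [h3] at h2
      simp only [Prod.fst_zero, Prod.snd_zero, add_zero] at h2
      have h4 := Finset.sum_eq_zero_iff.1 h2 x (Finset.mem_univ _)
      simpa using h4
  | add p q hp hq => rw [add_mul, map_add, hp, hq, coeff_add, map_add, add_mul]


/-! ## The field of fractions -/

theorem im_eq_zero {P : Ideal (Co a b)} (hP : P.IsPrime) {f : Co a b} : im P f = 0 ↔ f ∈ P := by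
  have : IsDomain (Co a b ⧸ P) := Ideal.Quotient.isDomain P
  have h1 : im P f = algebraMap (Co a b ⧸ P) (KK P) (Ideal.Quotient.mk P f) := rfl
  rw [h1, map_eq_zero_iff _ (IsFractionRing.injective (Co a b ⧸ P) (KK P)),
    Ideal.Quotient.eq_zero_iff_mem]

theorem hf_eq {P : Ideal (Co a b)} (hP : P.IsPrime) (u v : ℕ) :
    hf P u v = finrank ℂ ((bh a b u v).map (im P).toLinearMap) := by
  have : IsDomain (Co a b ⧸ P) := Ideal.Quotient.isDomain P
  have hinj : Function.Injective
      (IsScalarTower.toAlgHom ℂ (Co a b ⧸ P) (KK P)).toLinearMap :=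
    IsFractionRing.injective (Co a b ⧸ P) (KK P)
  have h1 : (bh a b u v).map (im P).toLinearMap =
      ((bh a b u v).map (Ideal.Quotient.mkₐ ℂ P).toLinearMap).map
        (IsScalarTower.toAlgHom ℂ (Co a b ⧸ P) (KK P)).toLinearMap := by
    rw [← Submodule.map_comp]
    rfl
  rw [h1, hf]
  exact LinearEquiv.finrank_eq (Submodule.equivMapOfInjective _ hinj _)

theorem fin_map {P : Ideal (Co a b)} (u v : ℕ) :
    FiniteDimensional ℂ ((bh a b u v).map (im P).toLinearMap) := by
  have := fin_bh (a := a) (b := b) u v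
  infer_instance

/-- multiplication by a nonzero fraction -/
theorem hf_le {P : Ideal (Co a b)} (hP : P.IsPrime) {u v u' v' : ℕ} {φ : KK P} (hφ : φ ≠ 0)
    (h : ∀ g ∈ bh a b u v, ∃ f ∈ bh a b u' v', φ * im P g = im P f) :
    hf P u v ≤ hf P u' v' := by
  have : IsDomain (Co a b ⧸ P) := Ideal.Quotient.isDomain P
  rw [hf_eq hP, hf_eq hP]
  have := fin_map (P := P) u' v'
  have hinj : Function.Injective (LinearMap.mulLeft ℂ φ) := fun x y hxy =>
    mul_left_cancel₀ hφ hxy
  have h1 : finrank ℂ ((bh a b u v).map (im P).toLinearMap) =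
      finrank ℂ (((bh a b u v).map (im P).toLinearMap).map (LinearMap.mulLeft ℂ φ)) :=
    LinearEquiv.finrank_eq (Submodule.equivMapOfInjective _ hinj _)
  rw [h1]
  refine Submodule.finrank_mono ?_
  rintro _ ⟨_, ⟨g, hg, rfl⟩, rfl⟩
  obtain ⟨f, hf, hfg⟩ := h g hg
  exact ⟨f, hf, hfg.symm⟩

/-- an irrelevant ideal has Hilbert function zero in large bidegrees -/
theorem hf_zero {P : Ideal (Co a b)} {u v : ℕ} (h : bh a b u v ≤ P.restrictScalars ℂ) :
    hf P u v = 0 := by
  have : (bh a b u v).map (Ideal.Quotient.mkₐ ℂ P).toLinearMap = ⊥ := by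
    rw [eq_bot_iff]
    rintro _ ⟨f, hf, rfl⟩
    exact Ideal.Quotient.eq_zero_iff_mem.2 (h hf)
  rw [hf, this, finrank_bot]

theorem growth_one {P : Ideal (Co a b)} {α β γ : ℝ} (hP : Surf P α β γ) :
    Tendsto (fun t : ℕ => 2 * (hf P t t : ℝ) / (t : ℝ) ^ 2) atTop (nhds (α + 2 * β + γ)) := by
  have := hP.growth 1 1 le_rfl le_rfl
  simpa using this

/-- the Hilbert function of a surface is unbounded on the diagonal -/
theorem unbounded {P : Ideal (Co a b)} {α β γ : ℝ} (hP : Surf P α β γ) (C : ℕ)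
    (hC : ∀ᶠ t : ℕ in atTop, hf P t t ≤ C) : False := by
  have h1 := growth_one hP
  have h2 : Tendsto (fun t : ℕ => 2 * (hf P t t : ℝ) / (t : ℝ) ^ 2) atTop (nhds 0) := by
    have h3 : Tendsto (fun t : ℕ => 2 * (C : ℝ) / (t : ℝ) ^ 2) atTop (nhds 0) :=
      tendsto_const_nhds.div_atTop
        ((tendsto_pow_atTop two_ne_zero).comp tendsto_natCast_atTop_atTop)
    refine squeeze_zero' (Eventually.of_forall fun t => by positivity) ?_ h3
    filter_upwards [hC] with t ht
    have : (hf P t t : ℝ) ≤ C := by exact_mod_cast ht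
    gcongr
  have := tendsto_nhds_unique h1 h2
  linarith [hP.pos]

theorem exists_inl {P : Ideal (Co a b)} {α β γ : ℝ} (hP : Surf P α β γ) :
    ∃ i, (X (Sum.inl i) : Co a b) ∉ P := by
  by_contra hcon
  push Not at hcon
  refine unbounded hP 0 ?_
  filter_upwards [eventually_ge_atTop 1] with t ht
  obtain ⟨t, rfl⟩ := Nat.exists_eq_add_of_le' ht
  rw [hf_zero (le_inl _ fun i g _ => ?_)]
  exact Ideal.mul_mem_right _ _ (hcon i)

theorem exists_inr {P : Ideal (Co a b)} {α β γ : ℝ} (hP : Surf P α β γ) :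
    ∃ j, (X (Sum.inr j) : Co a b) ∉ P := by
  by_contra hcon
  push Not at hcon
  refine unbounded hP 0 ?_
  filter_upwards [eventually_ge_atTop 1] with t ht
  obtain ⟨t, rfl⟩ := Nat.exists_eq_add_of_le' ht
  rw [hf_zero (le_inr _ fun i g _ => ?_)]
  exact Ideal.mul_mem_right _ _ (hcon i)

theorem pow_inl (i : Fin (a + 1)) (u : ℕ) : (X (Sum.inl i) : Co a b) ^ u ∈ bh a b u 0 := by
  induction u with
  | zero => simpa using one_mem
  | succ u ih => rw [pow_succ]; exact mul_mem ih (inl_mem i)

theorem pow_inr (j : Fin (b + 1)) (v : ℕ) : (X (Sum.inr j) : Co a b) ^ v ∈ bh a b 0 v := by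
  induction v with
  | zero => simpa using one_mem
  | succ v ih => rw [pow_succ]; exact mul_mem ih (inr_mem j)

/-- there are forms of all bidegrees outside the ideal of a surface -/
theorem exists_form {P : Ideal (Co a b)} {α β γ : ℝ} (hP : Surf P α β γ) (u v : ℕ) :
    ∃ h ∈ bh a b u v, h ∉ P := by
  obtain ⟨i, hi⟩ := exists_inl hP
  obtain ⟨j, hj⟩ := exists_inr hP
  refine ⟨X (Sum.inl i) ^ u * X (Sum.inr j) ^ v, ?_, ?_⟩
  · have := mul_mem (pow_inl (a := a) (b := b) i u) (pow_inr (a := a) (b := b) j v)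
    rwa [Nat.zero_add, Nat.add_zero] at this
  · intro hcon
    rcases hP.prime.mem_or_mem hcon with h | h
    · exact hi (hP.prime.mem_of_pow_mem _ h)
    · exact hj (hP.prime.mem_of_pow_mem _ h)

theorem ga_neg {P : Ideal (Co a b)} {α β γ : ℝ} (hP : Surf P α β γ) {u v u' v' : ℕ}
    (hu : u' < u) (hv : v' < v) (ψ : KK P)
    (h : ∀ s t : ℕ, ∀ g ∈ bh a b (u + s) (v + t), ∃ f ∈ bh a b (u' + s) (v' + t),
      ψ * im P g = im P f) : ψ = 0 := by
  by_contra hψ
  have hD := Ideal.Quotient.isDomain P (hI := hP.prime)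
  -- the Hilbert function does not increase on the diagonal
  have step : ∀ T, u ≤ T + 1 → v ≤ T + 1 → hf P (T + 1) (T + 1) ≤ hf P T T := by
    intro T hT1 hT2
    obtain ⟨s, hs⟩ := Nat.exists_eq_add_of_le hT1
    obtain ⟨t, ht⟩ := Nat.exists_eq_add_of_le hT2
    obtain ⟨h0, hh0, hh0P⟩ := exists_form hP (T - (u' + s)) (T - (v' + t))
    refine hf_le hP.prime (φ := ψ * im P h0)
      (mul_ne_zero hψ fun h => hh0P ((im_eq_zero hP.prime).1 h)) fun g hg => ?_
    have hg' : g ∈ bh a b (u + s) (v + t) := by rwa [← hs, ← ht]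
    obtain ⟨f, hf, hfg⟩ := h s t g hg'
    refine ⟨h0 * f, ?_, ?_⟩
    · have := mul_mem hh0 hf
      rwa [Nat.sub_add_cancel (by omega), Nat.sub_add_cancel (by omega)] at this
    · rw [map_mul, ← hfg]; ring
  refine unbounded hP (hf P (max u v) (max u v)) ?_
  filter_upwards [eventually_ge_atTop (max u v)] with T hT
  induction T, hT using Nat.le_induction with
  | base => exact le_rfl
  | succ T hT ih =>
    have := le_max_left u v
    have := le_max_right u v
    exact (step T (by omega) (by omega)).trans ih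

/-! ## Integrality -/

/-- finitely many elements generate all combinations of integral elements -/
theorem noeth (R : Type) [CommRing R] [IsDomain R] [Algebra ℂ R] [Algebra.FiniteType ℂ R]
    (W : Set (FractionRing R)) (hW : ∀ ψ ∈ W, IsIntegral R ψ) :
    ∃ T : Finset (FractionRing R), (T : Set (FractionRing R)) ⊆ W ∧
      ∀ ψ ∈ W, ψ ∈ Submodule.span R (T : Set (FractionRing R)) := by
  obtain ⟨s, g, ginj, gfin⟩ := exists_finite_inj_algHom_of_fg ℂ R
  let _ : Algebra (MvPolynomial (Fin s) ℂ) R := g.toRingHom.toAlgebra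
  have : Module.Finite (MvPolynomial (Fin s) ℂ) R := gfin
  have : FaithfulSMul (MvPolynomial (Fin s) ℂ) R :=
    (faithfulSMul_iff_algebraMap_injective _ _).2 ginj
  have : IsScalarTower (MvPolynomial (Fin s) ℂ) R (FractionRing R) := inferInstance
  have : FaithfulSMul (MvPolynomial (Fin s) ℂ) (FractionRing R) :=
    FaithfulSMul.trans (MvPolynomial (Fin s) ℂ) R (FractionRing R)
  let _ := FractionRing.liftAlgebra (MvPolynomial (Fin s) ℂ) (FractionRing R)
  have := FractionRing.isScalarTower_liftAlgebra (MvPolynomial (Fin s) ℂ) (FractionRing R)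
  have halg : Algebra.IsAlgebraic (FractionRing (MvPolynomial (Fin s) ℂ)) (FractionRing R) :=
    isAlgebraic_of_isFractionRing (MvPolynomial (Fin s) ℂ) R _ _
  have h1 : Algebra.EssFiniteType R (FractionRing R) :=
    Algebra.EssFiniteType.of_isLocalization _ (nonZeroDivisors R)
  have h2 : Algebra.EssFiniteType (MvPolynomial (Fin s) ℂ) (FractionRing R) :=
    Algebra.EssFiniteType.comp (MvPolynomial (Fin s) ℂ) R (FractionRing R)
  have h3 : Algebra.EssFiniteType (FractionRing (MvPolynomial (Fin s) ℂ)) (FractionRing R) :=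
    Algebra.EssFiniteType.of_comp (MvPolynomial (Fin s) ℂ) _ _
  have hfd : FiniteDimensional (FractionRing (MvPolynomial (Fin s) ℂ)) (FractionRing R) :=
    Algebra.finite_of_essFiniteType_of_isAlgebraic
  have hcz : CharZero (FractionRing (MvPolynomial (Fin s) ℂ)) := inferInstance
  have hsep : Algebra.IsSeparable (FractionRing (MvPolynomial (Fin s) ℂ)) (FractionRing R) :=
    inferInstance
  have hN : IsNoetherian (MvPolynomial (Fin s) ℂ)
      (integralClosure (MvPolynomial (Fin s) ℂ) (FractionRing R)) :=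
    IsIntegralClosure.isNoetherian (MvPolynomial (Fin s) ℂ)
      (FractionRing (MvPolynomial (Fin s) ℂ)) (FractionRing R) _
  have hle : Submodule.span (MvPolynomial (Fin s) ℂ) W ≤
      Subalgebra.toSubmodule (integralClosure (MvPolynomial (Fin s) ℂ) (FractionRing R)) := by
    rw [Submodule.span_le]
    intro ψ hψ
    exact isIntegral_trans ψ (hW ψ hψ)
  have hN' : IsNoetherian (MvPolynomial (Fin s) ℂ)
      (Subalgebra.toSubmodule (integralClosure (MvPolynomial (Fin s) ℂ) (FractionRing R))) := hN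
  have hfg : (Submodule.span (MvPolynomial (Fin s) ℂ) W).FG := by
    have := isNoetherian_of_le hle
    exact (isNoetherian_submodule.1 this) _ le_rfl
  obtain ⟨T, hTW, hT⟩ := (Submodule.fg_span_iff_fg_span_finset_subset _).1 hfg
  refine ⟨T, hTW, fun ψ hψ => ?_⟩
  have h4 : ψ ∈ Submodule.span (MvPolynomial (Fin s) ℂ) (T : Set (FractionRing R)) := by
    rw [← hT]; exact Submodule.subset_span hψ
  exact Submodule.span_le_restrictScalars (MvPolynomial (Fin s) ℂ) R _ h4

theorem smul_im {P : Ideal (Co a b)} (c : Co a b) (x : KK P) :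
    (Ideal.Quotient.mk P c) • x = im P c * x := Algebra.smul_def (Ideal.Quotient.mk P c) x

/-- fractions of bidegree `(m - q, n - p)` become integral after multiplication by a form of
bidegree `(q, p)` -/
theorem integral {P : Ideal (Co a b)} {α β γ : ℝ} (hP : Surf P α β γ) {m n q p u v : ℕ} {ψ : KK P}
    (hψ : Mu P ⊤ m n q p u v ψ) {h : Co a b} (hh : h ∈ bh a b q p) :
    IsIntegral (Co a b ⧸ P) (ψ * im P h) := by
  have hpr := hP.prime
  have hD := Ideal.Quotient.isDomain P
  obtain ⟨g0, hg0, hg0P⟩ := exists_form hP (u + q) (v + p)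
  have hF := fin_bh (a := a) (b := b) (u + q) (v + p)
  obtain ⟨F, hF⟩ := Module.Finite.iff_fg.1 hF
  refine isIntegral_of_smul_mem_submodule
    (Submodule.span (Co a b ⧸ P) (im P '' (bh a b (u + q) (v + p)))) ?_ ?_ _ ?_
  · intro hcon
    have : im P g0 ∈ Submodule.span (Co a b ⧸ P) (im P '' (bh a b (u + q) (v + p))) :=
      Submodule.subset_span ⟨g0, hg0, rfl⟩
    rw [hcon, Submodule.mem_bot, im_eq_zero hpr] at this
    exact hg0P this
  · classical
    refine ⟨F.image (im P), ?_⟩
    apply le_antisymm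
    · refine Submodule.span_mono ?_
      rw [Finset.coe_image]
      refine Set.image_mono ?_
      rw [← hF]
      exact Submodule.subset_span
    · rw [Submodule.span_le]
      rintro _ ⟨g, hg, rfl⟩
      have h1 : im P g ∈ (Submodule.span ℂ (F : Set (Co a b))).map (im P).toLinearMap :=
        ⟨g, by rw [hF]; exact hg, rfl⟩
      rw [Submodule.map_span] at h1
      rw [Finset.coe_image]
      exact Submodule.span_le_restrictScalars ℂ (Co a b ⧸ P) _ h1
  · intro x hx
    induction hx using Submodule.span_induction with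
    | mem x hx =>
      obtain ⟨g, hg, rfl⟩ := hx
      obtain ⟨f, hf, hfg⟩ := hψ g hg
      have h1 : (ψ * im P h) • im P g = im P (f * h) := by
        rw [smul_eq_mul, map_mul, ← hfg]; ring
      rw [h1]
      have h2 : bh a b (u + q + m) (v + p + n) ≤
          ((Submodule.span (Co a b ⧸ P) (im P '' (bh a b (u + q) (v + p)))).restrictScalars
            ℂ).comap (im P).toLinearMap := by
        refine le_mul _ _ _ _ _ fun g1 hg1 g2 _ => ?_
        have h3 : im P (g1 * g2) = (Ideal.Quotient.mk P g2) • im P g1 := by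
          rw [map_mul, mul_comm, smul_im]
        simp only [Submodule.mem_comap, AlgHom.toLinearMap_apply, Submodule.restrictScalars_mem]
        rw [h3]
        exact Submodule.smul_mem _ _ (Submodule.subset_span ⟨g1, hg1, rfl⟩)
      have h4 := mul_mem hf.1 hh
      rw [show u + m + q = u + q + m by ring, show v + n + p = v + p + n by ring] at h4
      exact h2 h4
    | zero => rw [smul_zero]; exact Submodule.zero_mem _
    | add x y _ _ hx hy => rw [smul_add]; exact Submodule.add_mem _ hx hy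
    | smul r x _ hx => rw [smul_comm]; exact Submodule.smul_mem _ _ hx

/-- a relation between fractions of the same bidegree -/
theorem span_complex {P : Ideal (Co a b)} {α β γ : ℝ} (hP : Surf P α β γ) (m n q p : ℕ)
    (T : Finset (KK P)) (hT : ∀ ψ ∈ T, Ga P ⊤ m n q p ψ) (ψ : KK P) (hψ : Ga P ⊤ m n q p ψ)
    (hs : ψ ∈ Submodule.span (Co a b ⧸ P) (T : Set (KK P))) :
    ψ ∈ Submodule.span ℂ (T : Set (KK P)) := by
  classical
  have hpr := hP.prime
  have hD := Ideal.Quotient.isDomain P
  obtain ⟨u0, v0, h0⟩ := hψ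
  have hT' : ∀ τ : T, ∃ u v : ℕ, Mu P ⊤ m n q p u v τ.1 := fun τ => hT τ.1 τ.2
  choose U V hUV using hT'
  obtain ⟨u, hu0, hu⟩ : ∃ u, u0 ≤ u ∧ ∀ τ, U τ ≤ u :=
    ⟨u0 + ∑ τ, U τ, by omega, fun τ => by
      have := Finset.single_le_sum (f := U) (fun _ _ => Nat.zero_le _) (Finset.mem_univ τ)
      omega⟩
  obtain ⟨v, hv0, hv⟩ : ∃ v, v0 ≤ v ∧ ∀ τ, V τ ≤ v :=
    ⟨v0 + ∑ τ, V τ, by omega, fun τ => by
      have := Finset.single_le_sum (f := V) (fun _ _ => Nat.zero_le _) (Finset.mem_univ τ)
      omega⟩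
  obtain ⟨g, hg, hgP⟩ := exists_form hP (u + q) (v + p)
  have hg0 : im P g ≠ 0 := fun h => hgP ((im_eq_zero hpr).1 h)
  obtain ⟨f, hf, hfg⟩ := mu_mono h0 hu0 hv0 g hg
  have h1 : ∀ τ : T, ∃ f' ∈ bh a b (u + m) (v + n), τ.1 * im P g = im P f' := fun τ => by
    obtain ⟨f', hf', h⟩ := mu_mono (hUV τ) (hu τ) (hv τ) g hg
    exact ⟨f', hf'.1, h⟩
  choose F hF hFg using h1
  -- the relation over the coordinate ring
  rw [Submodule.mem_span_finset'] at hs
  obtain ⟨r, hr⟩ := hs
  have h2 : ∀ τ : T, ∃ c : Co a b, Ideal.Quotient.mk P c = r τ := fun τ =>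
    Ideal.Quotient.mk_surjective _
  choose c hc using h2
  have h3 : im P f = im P (∑ τ : T, c τ * F τ) := by
    rw [← hfg, ← hr, map_sum, Finset.sum_mul]
    refine Finset.sum_congr rfl fun τ _ => ?_
    rw [map_mul, ← hFg, ← hc, smul_im, mul_assoc]
  have h4 : f - ∑ τ : T, c τ * F τ ∈ P := by
    rw [← im_eq_zero hpr, map_sub, h3, sub_self]
  have h5 := hP.hom _ h4 (u + m, v + n)
  rw [map_sub, map_sum, hf.1.weightedHomogeneousComponent_same] at h5
  have h6 : ∀ τ : T, weightedHomogeneousComponent (wt a b) (u + m, v + n) (c τ * F τ) =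
      C (coeff 0 (c τ)) * F τ := fun τ => comp_mul (hF τ) (c τ)
  rw [Finset.sum_congr rfl fun τ _ => h6 τ, ← im_eq_zero hpr, map_sub, sub_eq_zero, map_sum] at h5
  have h7 : ψ = ∑ τ : T, coeff 0 (c τ) • τ.1 := by
    apply mul_right_cancel₀ hg0
    rw [hfg, h5, Finset.sum_mul]
    refine Finset.sum_congr rfl fun τ _ => ?_
    rw [map_mul, ← hFg, smul_mul_assoc, Algebra.smul_def]
    congr 1
  rw [h7]
  exact Submodule.sum_mem _ fun τ _ => Submodule.smul_mem _ _ (Submodule.subset_span τ.2)

theorem finite_sections {P : Ideal (Co a b)} {α β γ : ℝ} (hP : Surf P α β γ) (m n q p : ℕ)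
    (W : Submodule ℂ (KK P)) (hW : ∀ ψ ∈ W, Ga P ⊤ m n q p ψ) : FiniteDimensional ℂ W := by
  classical
  have hpr := hP.prime
  have hD := Ideal.Quotient.isDomain P
  obtain ⟨h, hh, hhP⟩ := exists_form hP q p
  have hh0 : im P h ≠ 0 := fun h' => hhP ((im_eq_zero hpr).1 h')
  obtain ⟨T, hTW, hT⟩ := noeth (Co a b ⧸ P) ((fun ψ => ψ * im P h) '' (W : Set (KK P))) (by
    rintro _ ⟨ψ, hψ, rfl⟩
    obtain ⟨u, v, huv⟩ := hW ψ hψ
    exact integral hP huv hh)
  -- divide by `h`
  set T' : Finset (KK P) := T.image fun x => (im P h)⁻¹ * x with hT'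
  have hT'W : ∀ τ ∈ T', τ ∈ W := by
    intro τ hτ
    rw [hT', Finset.mem_image] at hτ
    obtain ⟨x, hx, rfl⟩ := hτ
    obtain ⟨ψ, hψ, rfl⟩ := hTW hx
    simp only
    rwa [mul_comm, mul_assoc, mul_inv_cancel₀ hh0, mul_one]
  have key : W ≤ Submodule.span ℂ (T' : Set (KK P)) := by
    intro ψ hψ
    refine span_complex hP m n q p T' (fun τ hτ => hW τ (hT'W τ hτ)) ψ (hW ψ hψ) ?_
    have h1 := hT _ ⟨ψ, hψ, rfl⟩
    have h2 : (im P h)⁻¹ * (ψ * im P h) ∈ (Submodule.span (Co a b ⧸ P) (T : Set (KK P))).map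
        (LinearMap.mulLeft (Co a b ⧸ P) (im P h)⁻¹) := ⟨_, h1, rfl⟩
    rw [Submodule.map_span] at h2
    rw [hT', Finset.coe_image]
    rwa [mul_comm, mul_assoc, mul_inv_cancel₀ hh0, mul_one] at h2
  exact Submodule.finiteDimensional_of_le key

end Pool.Agent.TH279.GR.G11
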